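import Mathlib
import Pool.Agent.Helper698.DDef
import Pool.Agent.Helper698.DE

open MvPolynomial Pool.Agent.Helper698.Dstab

universe u

namespace Pool.Agent.Results.MP_a8bb4d_al.StabilityBound

/-- For every nonzero proper monomial ideal `I` of `K[X_1, …, X_r]`, the depth of
`R ⧸ closure (I ^ n)` is constant for `n ≥ N = (r - 1) ^ (r - 1) * d(I) ^ (r - 2)`, and therefore
the depth stability index is at most `N`. -/
theorem result (K : Type u) [Field K] (r : ℕ) (I : Ideal (MvPolynomial (Fin r) K))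
    (hI : IsMonomialIdeal I) (hI0 : I ≠ ⊥) (hI1 : I ≠ ⊤) :
    (∀ n, (r - 1) ^ (r - 1) * maxGenDegree I ^ (r - 2) ≤ n →
      depthQuot (intClosurePow I n) =
        depthQuot (intClosurePow I ((r - 1) ^ (r - 1) * maxGenDegree I ^ (r - 2)))) ∧
    dstabBar I ≤ (r - 1) ^ (r - 1) * maxGenDegree I ^ (r - 2) :=
  main_bound I hI hI0 hI1

end Pool.Agent.Results.MP_a8bb4d_al.StabilityBound
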